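import Pool.Agent.Helper16.Cmp.Family
import Pool.Agent.Helper79.SQ.Trep
import Pool.Agent.Singer.Ord.Tits

/-!
# Comparison theorem

`vdim_le_sol`: `Γ` is residually a finite 2-group, `φ : Γ → W` a homomorphism to a right-angled Coxeter group, `M` a finite
dimensional vector space over a division ring `D` (of characteristic two) on which `W` acts `D`-linearly: the von Neumann
dimension of the solutions of a linear system over `ℤ Γ` is at most `dim_D (solutions in M) / dim_D M`.
-/

set_option autoImplicit false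
set_option linter.unusedSectionVars false
set_option linter.unusedVariables false

namespace Pool.Agent.Helper16.Cmp

open Singer Singer.Ord Finset

/-- groups which embed in a right-angled Coxeter group are residually finite 2-groups -/
theorem res_two_of_injective {V : Type} [Fintype V] {G : SimpleGraph V} {Γ : Type} [Group Γ] (φ : Γ →* RACG G)
    (hφ : Function.Injective φ) (g : Γ) (hg : g ≠ 1) :
    ∃ (Q : Type) (_ : Group Q) (_ : Fintype Q) (π : Γ →* Q), IsPGroup 2 Q ∧ π g ≠ 1 := by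
  obtain ⟨Q, i1, i2, π, h1, h2⟩ := racg_res_two G (φ g) (fun h => hg (hφ (h.trans (map_one φ).symm)))
  exact ⟨Q, i1, i2, π.comp φ, h1, h2⟩

/-- the comparison theorem -/
theorem vdim_le_sol {Γ : Type} [Group Γ] (hres : ∀ g : Γ, g ≠ 1 → ∃ (Q : Type) (_ : Group Q) (_ : Fintype Q)
      (π : Γ →* Q), IsPGroup 2 Q ∧ π g ≠ 1)
    {κ ι J : Type} [Fintype κ] [Fintype ι] [DecidableEq ι] [Fintype J]
    (c : κ → ι → J → ℤ) (s : J → Γ) (W : Submodule ℂ (E Γ ι)) (hW : (W : Set (E Γ ι)) = SolL c s)
    {V : Type} [Fintype V] {G : SimpleGraph V} (φ : Γ →* RACG G)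
    {D : Type*} [DivisionRing D] {M : Type*} [AddCommGroup M] [Module D M] [FiniteDimensional D M]
    (h2 : ∀ x : M, x + x = 0) (ρ : RACG G →* (M →ₗ[D] M)) :
    vdim W * Module.finrank D M ≤ Module.finrank D (SolD c (fun j => ρ (φ (s j)))) := by
  classical
  let _ : Module (ZMod 2) M := AddCommGroup.zmodModule (n := 2) fun x => by rw [two_nsmul]; exact h2 x
  let ρ' : RACG G →* Module.End D M := ρ
  let d : ℕ := Finset.univ.sup fun j => (Helper79.SQ.th ρ' h2 (φ (s j))).natDegree
  have hd : ∀ j, (Helper79.SQ.th ρ' h2 (φ (s j))).natDegree ≤ d := fun j =>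
    Finset.le_sup (f := fun j => (Helper79.SQ.th ρ' h2 (φ (s j))).natDegree) (Finset.mem_univ j)
  refine vdim_le_family hres c s W hW (fun j => ρ (φ (s j)))
    (fun j k => (Helper79.SQ.th ρ' h2 (φ (s j))).coeff k) d ?_ ?_ ?_
  · intro j k hk
    exact Polynomial.coeff_eq_zero_of_natDegree_lt ((hd j).trans_lt hk)
  · intro j
    exact Helper79.SQ.th_sum ρ' h2 (φ (s j)) (hd j)
  · intro l
    have := Helper79.SQ.finite_TQ ρ' h2 l
    refine ⟨Helper79.SQ.TQ ρ' h2 l, inferInstance, this, (QuotientGroup.mk' _).comp φ, Helper79.SQ.trepQ ρ' h2 l,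
      Helper79.SQ.isPGroup_TQ ρ' h2 l, ?_⟩
    intro j x n
    have h3 : Helper79.SQ.trepQ ρ' h2 l (((QuotientGroup.mk' _).comp φ) (s j)) x n =
        Helper79.SQ.trep ρ' h2 l (φ (s j)) x n := rfl
    rw [h3, Helper79.SQ.trep_apply, Finset.Nat.sum_antidiagonal_eq_sum_range_succ_mk]
    refine Finset.sum_congr rfl fun k hk => ?_
    congr 1
    have hk' : k ≤ (n : ℕ) := Nat.lt_succ_iff.1 (Finset.mem_range.1 hk)
    have hn : (n : ℕ) - k < l := lt_of_le_of_lt (Nat.sub_le _ _) n.2
    rw [dif_pos hk', Helper50.SQ.ext_lt _ _ hn]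

end Pool.Agent.Helper16.Cmp
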