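import Pool.Agent.Singer.Ord.ModTwo

/-!
# Comparison: linear systems over the group ring and modules over a division ring of characteristic two

`vdim_le_div`: for a residually finite 2-group `Γ` and a linear system over `ℤ Γ`, the von Neumann dimension of the
space of solutions in `ℓ²(Γ)` is bounded by the normalised dimension over a division ring `D` of the space of solutions in
any module on which `Γ` acts `D`-linearly through a finite 2-group.
-/

set_option autoImplicit false
set_option linter.unusedSectionVars false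
set_option linter.unusedVariables false

namespace Pool.Agent.Helper16.Cmp

open Singer Singer.Ord

section sol
variable {D : Type*} [DivisionRing D] {κ ι J : Type*} [Fintype ι] [Fintype J]

/-- solutions in a vector space over a division ring -/
def SolD {M : Type*} [AddCommGroup M] [Module D M] (c : κ → ι → J → ℤ) (T : J → M →ₗ[D] M) :
    Submodule D (ι → M) where
  carrier := {f | ∀ k, ∑ i, ∑ j, c k i j • T j (f i) = 0}
  zero_mem' := by simp
  add_mem' := by
    intro f h hf hh k
    have h1 := hf k
    have h2 := hh k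
    simp only [Pi.add_apply, map_add, smul_add, Finset.sum_add_distrib]
    rw [h1, h2, add_zero]
  smul_mem' := by
    intro a f hf k
    have h1 := hf k
    have : ∑ i, ∑ j, c k i j • T j ((a • f) i) = a • ∑ i, ∑ j, c k i j • T j (f i) := by
      simp only [Finset.smul_sum, Pi.smul_apply, map_smul]
      refine Finset.sum_congr rfl fun i _ => Finset.sum_congr rfl fun j _ => ?_
      rw [smul_comm]
    rw [this, h1, smul_zero]

theorem mem_SolD {M : Type*} [AddCommGroup M] [Module D M] {c : κ → ι → J → ℤ} {T : J → M →ₗ[D] M} {f : ι → M} :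
    f ∈ SolD c T ↔ ∀ k, ∑ i, ∑ j, c k i j • T j (f i) = 0 := Iff.rfl

end sol

section exact
variable {D : Type*} [DivisionRing D] {κ ι J : Type*} [Fintype ι] [Fintype J]

/-- an injective intertwiner -/
theorem sol_le_of_inj {X X' : Type*} [AddCommGroup X] [Module D X] [FiniteDimensional D X]
    [AddCommGroup X'] [Module D X'] [FiniteDimensional D X'] (c : κ → ι → J → ℤ) (T : J → X →ₗ[D] X)
    (T' : J → X' →ₗ[D] X') (e : X →ₗ[D] X') (he : Function.Injective e)
    (hT : ∀ j x, e (T j x) = T' j (e x)) :
    Module.finrank D (SolD c T) ≤ Module.finrank D (SolD c T') := by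
  let Φ : SolD c T →ₗ[D] SolD c T' :=
    { toFun := fun f => ⟨fun i => e (f.1 i), fun k => by
        have h := congrArg e (f.2 k)
        simp only [map_sum, map_zsmul, hT, map_zero] at h
        exact h⟩
      map_add' := fun f g => Subtype.ext (funext fun i => map_add e _ _)
      map_smul' := fun a f => Subtype.ext (funext fun i => map_smul e _ _) }
  refine LinearMap.finrank_le_finrank_of_injective (f := Φ) ?_
  intro f g h
  apply Subtype.ext
  funext i
  exact he (congrFun (congrArg Subtype.val h) i)

/-- two steps of a filtration -/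
theorem sol_le_two {X X' : Type*} [AddCommGroup X] [Module D X] [FiniteDimensional D X]
    [AddCommGroup X'] [Module D X'] [FiniteDimensional D X'] (c : κ → ι → J → ℤ) (T : J → X →ₗ[D] X)
    (T' : J → X' →ₗ[D] X') (e : X' →ₗ[D] X) (he : Function.Injective e)
    (hT : ∀ j x, e (T' j x) = T j (e x)) (P : X →ₗ[D] X) (hD : ∀ j x, P (T j x) = T j (P x))
    (h1 : ∀ x, ∃ y, e y = P x) (h2 : ∀ x, P x = 0 → ∃ y, e y = x) :
    Module.finrank D (SolD c T) ≤ 2 * Module.finrank D (SolD c T') := by
  let Φ : SolD c T →ₗ[D] (ι → X) :=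
    { toFun := fun f i => P (f.1 i)
      map_add' := fun f g => funext fun i => map_add P _ _
      map_smul' := fun a f => funext fun i => map_smul P _ _ }
  let Ψ : SolD c T' →ₗ[D] (ι → X) :=
    { toFun := fun f i => e (f.1 i)
      map_add' := fun f g => funext fun i => map_add e _ _
      map_smul' := fun a f => funext fun i => map_smul e _ _ }
  have hlift : ∀ f : ι → X', (∀ k, ∑ i, ∑ j, c k i j • T j (e (f i)) = 0) →
      f ∈ SolD c T' := by
    intro f hf k
    apply he
    simp only [map_sum, map_zsmul, hT, map_zero]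
    exact hf k
  have h3 := LinearMap.finrank_range_add_finrank_ker Φ
  have h4 : Module.finrank D (LinearMap.range Φ) ≤ Module.finrank D (SolD c T') := by
    have : LinearMap.range Φ ≤ LinearMap.range Ψ := by
      rintro _ ⟨f, rfl⟩
      choose y hy using fun i => h1 (f.1 i)
      refine ⟨⟨y, hlift y fun k => ?_⟩, funext fun i => hy i⟩
      have h := congrArg P (f.2 k)
      simp only [map_sum, map_zsmul, hD, map_zero] at h
      simp only [hy]
      exact h
    exact (Submodule.finrank_mono this).trans (LinearMap.finrank_range_le Ψ)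
  have h5 : Module.finrank D (LinearMap.ker Φ) ≤ Module.finrank D (SolD c T') := by
    have h6 : Module.finrank D (LinearMap.ker Φ) =
        Module.finrank D ((LinearMap.ker Φ).map (SolD c T).subtype) :=
      (Submodule.finrank_map_subtype_eq _ _).symm
    have : (LinearMap.ker Φ).map (SolD c T).subtype ≤ LinearMap.range Ψ := by
      rintro _ ⟨f, hf, rfl⟩
      have hf' : ∀ i, P (f.1 i) = 0 := fun i => congrFun (LinearMap.mem_ker.1 hf) i
      choose y hy using fun i => h2 (f.1 i) (hf' i)
      refine ⟨⟨y, hlift y fun k => ?_⟩, funext fun i => hy i⟩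
      simp only [hy]
      exact f.2 k
    rw [h6]
    exact (Submodule.finrank_mono this).trans (LinearMap.finrank_range_le Ψ)
  omega

end exact

section tw
variable {D : Type*} [DivisionRing D] {Γ : Type*} [Group Γ] {M : Type*} [AddCommGroup M] [Module D M]

/-- translation of functions with values in a module -/
def Tw {Q : Type*} [Group Q] (φ : Γ →* Q) (ρ : Γ →* (M →ₗ[D] M)) (h : Γ) : (Q → M) →ₗ[D] (Q → M) where
  toFun F g := ρ h (F (g * φ h))
  map_add' F G := funext fun g => map_add (ρ h) _ _
  map_smul' a F := funext fun g => map_smul (ρ h) _ _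

theorem Tw_apply {Q : Type*} [Group Q] (φ : Γ →* Q) (ρ : Γ →* (M →ₗ[D] M)) (h : Γ) (F : Q → M) (g : Q) :
    Tw φ ρ h F g = ρ h (F (g * φ h)) := rfl

theorem sol_tw [FiniteDimensional D M] (hch : ∀ x : M, x + x = 0) {κ ι J : Type*} [Fintype ι] [Fintype J]
    (c : κ → ι → J → ℤ) (s : J → Γ) (ρ : Γ →* (M →ₗ[D] M)) (n : ℕ) :
    ∀ (Q : Type) [Group Q] [Finite Q] (φ : Γ →* Q), IsPGroup 2 Q → Nat.card Q = n →
      Module.finrank D (SolD c (fun j => Tw φ ρ (s j))) ≤
        n * Module.finrank D (SolD c (fun j => ρ (s j))) := by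
  induction n using Nat.strong_induction_on with
  | _ n ih =>
    intro Q _ _ φ hQ hn
    have hfd : ∀ (Q' : Type) [Finite Q'], FiniteDimensional D (Q' → M) := fun Q' _ => inferInstance
    rcases subsingleton_or_nontrivial Q with hs | hs
    · have hn1 : n = 1 := by rw [← hn]; exact Nat.card_unique
      rw [hn1, one_mul]
      refine sol_le_of_inj c _ _ (LinearMap.proj 1) ?_ ?_
      · intro F G h
        funext g
        rw [Subsingleton.elim g 1]
        exact h
      · intro j F
        show ρ (s j) (F (1 * φ (s j))) = ρ (s j) (F 1)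
        rw [Subsingleton.elim (1 * φ (s j)) 1]
    · -- a central element of order two
      obtain ⟨z, hzc, hz1, hz2⟩ : ∃ z : Q, z ∈ Subgroup.center Q ∧ z ≠ 1 ∧ z * z = 1 := by
        have hc := hQ.center_nontrivial
        obtain ⟨⟨w, hw⟩, hw1⟩ := exists_ne (1 : Subgroup.center Q)
        have hw1' : w ≠ 1 := fun h => hw1 (Subtype.ext h)
        obtain ⟨k, hk, hmin⟩ : ∃ k, w ^ 2 ^ k = 1 ∧ ∀ j < k, w ^ 2 ^ j ≠ 1 := by
          classical
          have hex : ∃ k, w ^ 2 ^ k = 1 := hQ w
          exact ⟨Nat.find hex, Nat.find_spec hex, fun j hj => Nat.find_min hex hj⟩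
        rcases k with _ | k
        · rw [pow_zero, pow_one] at hk; exact absurd hk hw1'
        · refine ⟨w ^ 2 ^ k, Subgroup.pow_mem _ hw _, hmin k (Nat.lt_succ_self k), ?_⟩
          rw [← pow_add, ← two_mul, ← pow_succ']
          exact hk
      have hcomm : ∀ g : Q, g * z = z * g := fun g => (Subgroup.mem_center_iff.1 hzc g)
      let N : Subgroup Q := Subgroup.zpowers z
      have hN : N.Normal := by
        refine ⟨fun x hx g => ?_⟩
        obtain ⟨k, rfl⟩ := hx
        have : g * z ^ k * g⁻¹ = z ^ k := by
          have h1 : Commute g (z ^ k) := Commute.zpow_right (hcomm g) k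
          rw [h1.eq, mul_inv_cancel_right]
        rw [this]
        exact ⟨k, rfl⟩
      have hcard : Nat.card N = 2 := by
        rw [Nat.card_zpowers]
        exact orderOf_eq_prime (by rw [sq]; exact hz2) hz1
      have hcard2 : Nat.card Q = Nat.card (Q ⧸ N) * 2 := by
        rw [← hcard]; exact Subgroup.card_eq_card_quotient_mul_card_subgroup N
      have hpos : 0 < Nat.card (Q ⧸ N) := Nat.card_pos
      have h1 := ih (Nat.card (Q ⧸ N)) (by omega) (Q ⧸ N) ((QuotientGroup.mk' N).comp φ)
        (hQ.to_quotient N) rfl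
      have key : Module.finrank D (SolD c (fun j => Tw φ ρ (s j))) ≤
          2 * Module.finrank D (SolD c (fun j => Tw ((QuotientGroup.mk' N).comp φ) ρ (s j))) := by
        let e : (Q ⧸ N → M) →ₗ[D] (Q → M) :=
          { toFun := fun F g => F (g : Q ⧸ N)
            map_add' := fun F G => rfl
            map_smul' := fun a F => rfl }
        let P : (Q → M) →ₗ[D] (Q → M) :=
          { toFun := fun F g => F g + F (g * z)
            map_add' := fun F G => funext fun g => by
              show (F g + G g) + (F (g * z) + G (g * z)) = (F g + F (g * z)) + (G g + G (g * z))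
              abel
            map_smul' := fun a F => funext fun g => by
              show a • F g + a • F (g * z) = a • (F g + F (g * z))
              rw [smul_add] }
        -- invariant functions come from the quotient
        have hinv : ∀ F : Q → M, (∀ g, F (g * z) = F g) → ∃ G : Q ⧸ N → M, e G = F := by
          intro F hF
          refine ⟨fun q => F q.out, funext fun g => ?_⟩
          show F ((g : Q ⧸ N).out) = F g
          have h2 : ((g : Q ⧸ N).out)⁻¹ * g ∈ N := by
            rw [← QuotientGroup.eq]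
            exact QuotientGroup.out_eq' _
          obtain ⟨k, hk⟩ := h2
          have h3 : g = (g : Q ⧸ N).out * z ^ k := by
            have hk' : z ^ k = ((g : Q ⧸ N).out)⁻¹ * g := hk
            rw [hk', mul_inv_cancel_left]
          have h4 : ∀ (k : ℤ) (x : Q), F (x * z ^ k) = F x := by
            intro k
            induction k using Int.induction_on with
            | zero => intro x; rw [zpow_zero, mul_one]
            | succ i ih => intro x; rw [zpow_add_one, ← mul_assoc, hF, ih]
            | pred i ih =>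
              intro x
              rw [zpow_sub_one, ← mul_assoc, ← hF, inv_mul_cancel_right, ih]
          conv_rhs => rw [h3]
          rw [h4]
        refine sol_le_two c _ _ e ?_ ?_ P ?_ ?_ ?_
        · intro F G h
          funext q
          obtain ⟨g, rfl⟩ := QuotientGroup.mk_surjective q
          exact congrFun h g
        · intro j F
          rfl
        · intro j F
          funext g
          show ρ (s j) (F (g * φ (s j))) + ρ (s j) (F (g * z * φ (s j))) =
            ρ (s j) (F (g * φ (s j)) + F (g * φ (s j) * z))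
          rw [map_add, mul_assoc g z, ← hcomm, ← mul_assoc]
        · intro F
          refine hinv _ fun g => ?_
          show F (g * z) + F (g * z * z) = F g + F (g * z)
          rw [mul_assoc, hz2, mul_one, add_comm]
        · intro F hF
          refine hinv _ fun g => ?_
          have h2 : F g + F (g * z) = 0 := congrFun hF g
          have h3 : F g + F g = 0 := hch _
          exact add_left_cancel (h2.trans h3.symm)
      calc Module.finrank D (SolD c (fun j => Tw φ ρ (s j)))
          ≤ 2 * Module.finrank D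
            (SolD c (fun j => Tw ((QuotientGroup.mk' N).comp φ) ρ (s j))) := key
        _ ≤ 2 * (Nat.card (Q ⧸ N) * Module.finrank D (SolD c (fun j => ρ (s j)))) := by omega
        _ = n * Module.finrank D (SolD c (fun j => ρ (s j))) := by
          rw [← hn, hcard2]; ring

end tw

/-- for a finite 2-group -/
theorem finrank_two_group {D : Type*} [DivisionRing D] {κ ι J : Type*} [Fintype κ] [Fintype ι] [Fintype J]
    (c : κ → ι → J → ℤ) {Q : Type} [Group Q] [Fintype Q] (hQ : IsPGroup 2 Q) (s : J → Q) {M : Type*} [AddCommGroup M]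
    [Module D M] [FiniteDimensional D M] [Module (ZMod 2) M] (ρ : Q →* (M →ₗ[D] M)) :
    Module.finrank (ZMod 2) (SolQ (Q := Q) (ZMod 2) c s) * Module.finrank D M ≤
      Fintype.card Q * Module.finrank D (SolD c (fun j => ρ (s j))) := by
  have hch : ∀ x : M, x + x = 0 := by
    intro x
    have h : (2 : ZMod 2) • x = 0 := by
      rw [show (2 : ZMod 2) = 0 from rfl, zero_smul]
    rwa [two_smul] at h
  have h1 := sol_tw hch c s ρ (Nat.card Q) Q (MonoidHom.id Q) hQ rfl
  rw [← Nat.card_eq_fintype_card]
  refine le_trans ?_ h1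
  have : FiniteDimensional (ZMod 2) (Q → ι → ZMod 2) := inferInstance
  let b := Module.finBasis (ZMod 2) (SolQ (Q := Q) (ZMod 2) c s)
  have hρ : ∀ g h : Q, ∀ x : M, ρ g (ρ h x) = ρ (g * h) x := fun g h x => by rw [map_mul]; rfl
  have hz : ∀ (g : Q) (a : ZMod 2) (x : M), ρ g (a • x) = a • ρ g x := fun g a x =>
    ZMod.map_smul (ρ g) a x
  have hzD : ∀ (t : D) (a : ZMod 2) (x : M), t • (a • x) = a • (t • x) := fun t a x =>
    ZMod.map_smul (DistribSMul.toAddMonoidHom M t) a x
  let Φ : (Fin (Module.finrank (ZMod 2) (SolQ (Q := Q) (ZMod 2) c s)) → M) →ₗ[D]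
      SolD c (fun j => Tw (MonoidHom.id Q) ρ (s j)) :=
    { toFun := fun m => ⟨fun i g => ρ g⁻¹ (∑ a, (b a).1 g i • m a), fun k => by
        funext g
        have e1 : ∀ i j, Tw (MonoidHom.id Q) ρ (s j) (fun g => ρ g⁻¹ (∑ a, (b a).1 g i • m a)) g =
            ρ g⁻¹ (∑ a, (b a).1 (g * s j) i • m a) := by
          intro i j
          rw [Tw_apply, MonoidHom.id_apply, hρ, mul_inv_rev, mul_inv_cancel_left]
        have e2 : (∑ i, ∑ j, c k i j • Tw (MonoidHom.id Q) ρ (s j)
            (fun g => ρ g⁻¹ (∑ a, (b a).1 g i • m a))) g =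
            ρ g⁻¹ (∑ a, (∑ i, ∑ j, (c k i j : ZMod 2) * (b a).1 (g * s j) i) • m a) := by
          simp only [Finset.sum_apply, Pi.smul_apply, e1]
          simp only [Finset.sum_smul, map_sum]
          rw [Finset.sum_comm (s := (Finset.univ : Finset (Fin _)))]
          refine Finset.sum_congr rfl fun i _ => ?_
          rw [Finset.sum_comm (s := (Finset.univ : Finset (Fin _)))]
          refine Finset.sum_congr rfl fun j _ => ?_
          rw [Finset.smul_sum]
          refine Finset.sum_congr rfl fun a _ => ?_
          rw [mul_smul, hz g⁻¹ ((c k i j : ℤ) : ZMod 2), Int.cast_smul_eq_zsmul]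
        rw [e2]
        have e3 : ∀ a, ∑ i, ∑ j, (c k i j : ZMod 2) * (b a).1 (g * s j) i = 0 := fun a => (b a).2 g k
        simp only [e3, zero_smul, Finset.sum_const_zero, map_zero]
        rfl⟩
      map_add' := fun m m' => by
        apply Subtype.ext
        funext i g
        show ρ g⁻¹ (∑ a, (b a).1 g i • (m a + m' a)) = _
        simp only [smul_add, Finset.sum_add_distrib, map_add]
        rfl
      map_smul' := fun t m => by
        apply Subtype.ext
        funext i g
        show ρ g⁻¹ (∑ a, (b a).1 g i • (t • m a)) = t • ρ g⁻¹ (∑ a, (b a).1 g i • m a)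
        simp only [← hzD, ← Finset.smul_sum, map_smul] }
  have hΦ : Function.Injective Φ := by
    rw [← LinearMap.ker_eq_bot, LinearMap.ker_eq_bot']
    intro m hm
    have h3 : ∀ g i, ∑ a, (b a).1 g i • m a = 0 := by
      intro g i
      have h2 : ρ g⁻¹ (∑ a, (b a).1 g i • m a) = 0 := congrFun (congrFun (congrArg Subtype.val hm) i) g
      have h4 := congrArg (ρ g) h2
      rw [hρ, mul_inv_cancel, map_one, Module.End.one_apply, map_zero] at h4
      exact h4
    funext a
    refine (Module.forall_dual_apply_eq_zero_iff (ZMod 2) (m a)).1 fun φ => ?_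
    have h5 : ∑ a, φ (m a) • b a = 0 := by
      apply Subtype.ext
      funext g i
      have h6 := congrArg φ (h3 g i)
      rw [map_sum, map_zero] at h6
      have h7 : (((∑ a, φ (m a) • b a : SolQ (Q := Q) (ZMod 2) c s)) : Q → ι → ZMod 2) g i =
          ∑ a, φ (m a) * (b a).1 g i := by
        rw [AddSubmonoidClass.coe_finset_sum, Finset.sum_apply, Finset.sum_apply]
        rfl
      rw [h7]
      show ∑ a, φ (m a) * (b a).1 g i = 0
      rw [← h6]
      refine Finset.sum_congr rfl fun a _ => ?_
      rw [map_smul, smul_eq_mul, mul_comm]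
    exact Fintype.linearIndependent_iff.1 b.linearIndependent _ h5 a
  have h2 := LinearMap.finrank_le_finrank_of_injective hΦ
  rw [Module.finrank_pi_fintype, Finset.sum_const, Finset.card_univ, Fintype.card_fin, smul_eq_mul] at h2
  exact h2

/-- the bound for residually finite 2-groups and modules over division rings with an action through a finite 2-group -/
theorem vdim_le_div {Γ : Type} [Group Γ] (hres : ∀ g : Γ, g ≠ 1 → ∃ (Q : Type) (_ : Group Q) (_ : Fintype Q)
      (π : Γ →* Q), IsPGroup 2 Q ∧ π g ≠ 1)
    {κ ι J : Type} [Fintype κ] [Fintype ι] [DecidableEq ι] [Fintype J]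
    (c : κ → ι → J → ℤ) (s : J → Γ) (W : Submodule ℂ (E Γ ι)) (hW : (W : Set (E Γ ι)) = SolL c s)
    {D : Type*} [DivisionRing D] {M : Type*} [AddCommGroup M] [Module D M] [FiniteDimensional D M] [Module (ZMod 2) M]
    {Q2 : Type} [Group Q2] [Finite Q2] (hQ2 : IsPGroup 2 Q2) (φ : Γ →* Q2) (ρ : Q2 →* (M →ₗ[D] M)) :
    vdim W * Module.finrank D M ≤ Module.finrank D (SolD c (fun j => ρ (φ (s j)))) := by
  classical
  set d : ℝ := (Module.finrank D M : ℝ) with hd
  have hd0 : 0 ≤ d := Nat.cast_nonneg _
  refine le_of_forall_pos_le_add fun ε hε => ?_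
  have hε' : 0 < ε / (d + 1) := div_pos hε (by linarith)
  obtain ⟨S, hS, hQ⟩ := luck c s W hW (ε / (d + 1)) hε'
  obtain ⟨Q1, i1, j1, π1, h3, h4⟩ := ModTwo.res_finset hres S hS
  let f2 : Fintype Q2 := Fintype.ofFinite _
  let π : Γ →* Q1 × Q2 := π1.prod φ
  let ρ' : Q1 × Q2 →* (M →ₗ[D] M) := ρ.comp (MonoidHom.snd Q1 Q2)
  have h6 : ∀ g, ρ' (π g) = ρ (φ g) := fun g => rfl
  have h7 := hQ (Q1 × Q2) π (fun g hg h => h4 g hg (congrArg Prod.fst h))
  have h8 := finrank_mod_two c (Q := Q1 × Q2) (fun j => π (s j))
  have h9 : Module.finrank (ZMod 2) (SolQ (Q := Q1 × Q2) (ZMod 2) c (fun j => π (s j))) *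
      Module.finrank D M ≤
      Fintype.card (Q1 × Q2) * Module.finrank D (SolD c (fun j => ρ (φ (s j)))) :=
    finrank_two_group c (Q := Q1 × Q2) (ModTwo.isPGroup_prod h3 hQ2) (fun j => π (s j)) ρ'
  set m : ℝ := (Module.finrank D (SolD c (fun j => ρ (φ (s j)))) : ℝ) with hm
  have h8' : (Module.finrank ℂ (SolQ (Q := Q1 × Q2) ℂ c (fun j => π (s j))) : ℝ) ≤
      Module.finrank (ZMod 2) (SolQ (Q := Q1 × Q2) (ZMod 2) c (fun j => π (s j))) := by exact_mod_cast h8
  have h9' : (Module.finrank (ZMod 2) (SolQ (Q := Q1 × Q2) (ZMod 2) c (fun j => π (s j))) : ℝ) * d ≤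
      Fintype.card (Q1 × Q2) * m := by
    rw [hd, hm]; exact_mod_cast h9
  have hq : (0 : ℝ) < Fintype.card (Q1 × Q2) := by exact_mod_cast Fintype.card_pos
  have h10 : (vdim W - ε / (d + 1)) * d ≤ m := by
    have h11 : (Fintype.card (Q1 × Q2) : ℝ) * ((vdim W - ε / (d + 1)) * d) ≤ Fintype.card (Q1 × Q2) * m := by
      calc (Fintype.card (Q1 × Q2) : ℝ) * ((vdim W - ε / (d + 1)) * d)
          = ((vdim W - ε / (d + 1)) * Fintype.card (Q1 × Q2)) * d := by ring
        _ ≤ (Module.finrank ℂ (SolQ (Q := Q1 × Q2) ℂ c (fun j => π (s j))) : ℝ) * d :=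
          mul_le_mul_of_nonneg_right h7 hd0
        _ ≤ (Module.finrank (ZMod 2) (SolQ (Q := Q1 × Q2) (ZMod 2) c (fun j => π (s j))) : ℝ) * d :=
          mul_le_mul_of_nonneg_right h8' hd0
        _ ≤ _ := h9'
    exact le_of_mul_le_mul_left h11 hq
  have h12 : ε / (d + 1) * d ≤ ε := by
    rw [div_mul_eq_mul_div, div_le_iff₀ (by linarith)]
    nlinarith
  linarith

end Pool.Agent.Helper16.Cmp
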