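import Pool.Agent.Helper16.Cmp.DivMod
import Pool.Agent.Helper50.SQ.Trunc

/-!
# Comparison: deformations of the trivial action

`vdim_le_family`: if the operators of a system on `M` are the values at `a = 1` of polynomials in `a` with operator
coefficients, such that on `M[a] / (a ^ l)` they come from the action of a finite 2-group for every `l`, then the von Neumann
dimension of the solutions is bounded by the normalised dimension of the solutions in `M`.
-/

set_option autoImplicit false
set_option linter.unusedSectionVars false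
set_option linter.unusedVariables false

namespace Pool.Agent.Helper16.Cmp

open Singer Singer.Ord Finset

section fam
variable {D : Type*} [DivisionRing D] {κ ι J : Type*} [Fintype κ] [Fintype ι] [Fintype J]
  {M : Type*} [AddCommGroup M] [Module D M]

/-- the operator of a system -/
def opP (c : κ → ι → J → ℤ) (T : J → M →ₗ[D] M) : (ι → M) →ₗ[D] (κ → M) where
  toFun f k := ∑ i, ∑ j, c k i j • T j (f i)
  map_add' f h := by
    funext k
    simp only [Pi.add_apply, map_add, smul_add, Finset.sum_add_distrib]
  map_smul' a f := by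
    funext k
    simp only [Pi.smul_apply, map_smul, RingHom.id_apply, Finset.smul_sum]
    refine Finset.sum_congr rfl fun i _ => Finset.sum_congr rfl fun j _ => ?_
    rw [smul_comm]

theorem opP_apply (c : κ → ι → J → ℤ) (T : J → M →ₗ[D] M) (f : ι → M) (k : κ) :
    opP c T f k = ∑ i, ∑ j, c k i j • T j (f i) := rfl

theorem ker_opP (c : κ → ι → J → ℤ) (T : J → M →ₗ[D] M) : LinearMap.ker (opP c T) = SolD c T := by
  ext f
  rw [LinearMap.mem_ker, mem_SolD, funext_iff]
  rfl

theorem opP_zero (c : κ → ι → J → ℤ) : opP c (fun _ : J => (0 : M →ₗ[D] M)) = 0 := by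
  apply LinearMap.ext
  intro f
  funext k
  rw [opP_apply]
  simp

theorem opP_sum (c : κ → ι → J → ℤ) {N : Type*} (s : Finset N) (T : N → J → M →ₗ[D] M) :
    ∑ n ∈ s, opP c (T n) = opP c (fun j => ∑ n ∈ s, T n j) := by
  classical
  apply LinearMap.ext
  intro f
  funext k
  rw [LinearMap.sum_apply, Finset.sum_apply, opP_apply]
  simp only [opP_apply, LinearMap.sum_apply, Finset.smul_sum]
  rw [Finset.sum_comm]
  refine Finset.sum_congr rfl fun i _ => ?_
  rw [Finset.sum_comm]

/-- the dimension of the solutions in `M[a] / (a ^ l)` -/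
theorem finrank_sol_trunc [FiniteDimensional D M] (c : κ → ι → J → ℤ) (T : J → M →ₗ[D] M)
    (P : J → ℕ → M →ₗ[D] M) (d : ℕ) (hP : ∀ j k, d < k → P j k = 0)
    (hT : ∀ j, ∑ k ∈ range (d + 1), P j k = T j) (l : ℕ)
    (R : J → (Fin l → M) →ₗ[D] (Fin l → M))
    (hR : ∀ j x n, R j x n = ∑ q ∈ antidiagonal (n : ℕ), P j q.1 (Helper50.SQ.ext D l x q.2)) :
    Module.finrank D (SolD c R) ≤ l * Module.finrank D (SolD c T) + d * (Fintype.card κ * Module.finrank D M) := by
  let PP : ℕ → (ι → M) →ₗ[D] (κ → M) := fun k => opP c (fun j => P j k)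
  have hPP : ∀ k, d < k → PP k = 0 := fun k hk => by
    show opP c (fun j => P j k) = 0
    rw [show (fun j => P j k) = fun _ : J => (0 : M →ₗ[D] M) from funext fun j => hP j k hk, opP_zero]
  have h1 := Helper50.SQ.finrank_ker_tr_le l d PP hPP
  have h2 : ∑ k ∈ range (d + 1), PP k = opP c T := by
    show ∑ k ∈ range (d + 1), opP c (fun j => P j k) = opP c T
    rw [opP_sum c (range (d + 1)) (fun k j => P j k)]
    congr 1
    funext j
    exact hT j
  rw [h2, ker_opP, Module.finrank_pi_fintype, Finset.sum_const, Finset.card_univ, smul_eq_mul] at h1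
  refine le_trans ?_ h1
  let Φ : SolD c R →ₗ[D] LinearMap.ker (Helper50.SQ.tr l PP) :=
    { toFun := fun f => ⟨fun n i => f.1 i n, by
        rw [LinearMap.mem_ker]
        funext n k
        rw [Helper50.SQ.tr_apply]
        have h3 := congrFun (f.2 k) n
        rw [Finset.sum_apply] at h3
        simp only [Finset.sum_apply, Pi.smul_apply, hR] at h3
        rw [Finset.sum_apply]
        have h4 : ∀ q : ℕ × ℕ, (PP q.1 (Helper50.SQ.ext D l (fun (n : Fin l) i => f.1 i n) q.2) : κ → M) k =
            ∑ i, ∑ j, c k i j • P j q.1 (Helper50.SQ.ext D l (f.1 i) q.2) := by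
          intro q
          show opP c (fun j => P j q.1) _ k = _
          rw [opP_apply]
          refine Finset.sum_congr rfl fun i _ => Finset.sum_congr rfl fun j _ => ?_
          congr 2
          by_cases hq : q.2 < l
          · rw [Helper50.SQ.ext_lt _ _ hq, Helper50.SQ.ext_lt _ _ hq]
          · rw [Helper50.SQ.ext_ge _ _ (not_lt.1 hq), Helper50.SQ.ext_ge _ _ (not_lt.1 hq)]
            rfl
        simp only [h4]
        rw [Finset.sum_comm]
        refine Eq.trans ?_ h3
        refine Finset.sum_congr rfl fun i _ => ?_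
        rw [Finset.sum_comm]
        refine Finset.sum_congr rfl fun j _ => ?_
        rw [Finset.smul_sum]⟩
      map_add' := fun f g => rfl
      map_smul' := fun a f => rfl }
  refine LinearMap.finrank_le_finrank_of_injective (f := Φ) ?_
  intro f g h
  apply Subtype.ext
  funext i
  funext n
  exact congrFun (congrFun (congrArg Subtype.val h) n) i

end fam

/-- the bound for families of actions through finite 2-groups -/
theorem vdim_le_family {Γ : Type} [Group Γ] (hres : ∀ g : Γ, g ≠ 1 → ∃ (Q : Type) (_ : Group Q) (_ : Fintype Q)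
      (π : Γ →* Q), IsPGroup 2 Q ∧ π g ≠ 1)
    {κ ι J : Type} [Fintype κ] [Fintype ι] [DecidableEq ι] [Fintype J]
    (c : κ → ι → J → ℤ) (s : J → Γ) (W : Submodule ℂ (E Γ ι)) (hW : (W : Set (E Γ ι)) = SolL c s)
    {D : Type*} [DivisionRing D] {M : Type*} [AddCommGroup M] [Module D M] [FiniteDimensional D M] [Module (ZMod 2) M]
    (T : J → M →ₗ[D] M) (P : J → ℕ → M →ₗ[D] M) (d : ℕ) (hP : ∀ j k, d < k → P j k = 0)
    (hT : ∀ j, ∑ k ∈ range (d + 1), P j k = T j)
    (hrep : ∀ l : ℕ, ∃ (Q2 : Type) (_ : Group Q2) (_ : Finite Q2) (π : Γ →* Q2)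
      (r : Q2 →* ((Fin l → M) →ₗ[D] (Fin l → M))), IsPGroup 2 Q2 ∧ ∀ j x n,
        r (π (s j)) x n = ∑ q ∈ antidiagonal (n : ℕ), P j q.1 (Helper50.SQ.ext D l x q.2)) :
    vdim W * Module.finrank D M ≤ Module.finrank D (SolD c T) := by
  set m : ℝ := (Module.finrank D M : ℝ) with hm
  set K : ℝ := (Module.finrank D (SolD c T) : ℝ) with hK
  have key : ∀ l : ℕ, (vdim W * m) * l ≤ K * l + d * (Fintype.card κ * m) := by
    intro l
    obtain ⟨Q2, i1, i2, π, r, h1, h2⟩ := hrep l
    have h3 := vdim_le_div hres c s W hW (M := Fin l → M) h1 π r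
    have h4 := finrank_sol_trunc c T P d hP hT l (fun j => r (π (s j))) h2
    have h5 : Module.finrank D (Fin l → M) = l * Module.finrank D M := by
      rw [Module.finrank_pi_fintype, Finset.sum_const, Finset.card_univ, Fintype.card_fin, smul_eq_mul]
    rw [h5] at h3
    have h4' : (Module.finrank D (SolD c (fun j => r (π (s j)))) : ℝ) ≤ l * K + d * (Fintype.card κ * m) := by
      rw [hm, hK]
      exact_mod_cast h4
    push_cast at h3
    calc (vdim W * m) * l = vdim W * (l * m) := by ring
      _ ≤ _ := h3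
      _ ≤ _ := h4'
      _ = _ := by ring
  by_contra hlt
  rw [not_le] at hlt
  have h0 : 0 < vdim W * m - K := by linarith
  obtain ⟨l, hl⟩ := exists_nat_gt ((d * (Fintype.card κ * m)) / (vdim W * m - K))
  rw [div_lt_iff₀ h0] at hl
  have := key l
  nlinarith

end Pool.Agent.Helper16.Cmp
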